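import Pool.Agent.Lib.BE.SpecE

/-!
PROJECT BE, module AdC (helper70): the class modulo `V`.
-/

set_option autoImplicit false

namespace Pool.Agent.Lib.BE

open Finset
open Pool.Agent.Lib.MP_9f2731_nt.GP
open Pool.Agent.Lib.MP_9f2731_nt.CG
open Pool.Agent.Lib.MP_9f2731_nt.CG.Mf

theorem tAdC (h1 : ApPStmt) : AdCStmt := by
  intro N V M' h hV _ hco hfac
  have hex : ∀ p : ℕ, ∃ ν : ℕ, p.Prime → ∀ i, ¬ (p : ℤ) ∣ (M' i : ℤ) * ν + h i := by
    intro p
    by_cases hp : p.Prime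
    · obtain ⟨ν, hν⟩ := h1 N p M' h hp hco hfac
      exact ⟨ν, fun _ => hν⟩
    · exact ⟨0, fun hp' => absurd hp' hp⟩
  choose a ha using hex
  have hpw : Set.Pairwise ((V.primeFactors : Finset ℕ) : Set ℕ) (Function.onFun Nat.Coprime (fun p => p)) := by
    intro p hp q hq hpq
    exact (Nat.coprime_primes (Nat.prime_of_mem_primeFactors (Finset.mem_coe.1 hp))
      (Nat.prime_of_mem_primeFactors (Finset.mem_coe.1 hq))).2 hpq
  obtain ⟨k, hk⟩ := Nat.chineseRemainderOfFinset a (fun p => p) V.primeFactors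
    (fun p hp => (Nat.prime_of_mem_primeFactors hp).ne_zero) hpw
  refine ⟨V + k % V, Nat.le_add_right _ _, ?_, ?_⟩
  · have := Nat.mod_lt k hV
    omega
  · intro i
    rw [Int.isCoprime_iff_gcd_eq_one]
    by_contra hne
    obtain ⟨p, hp, hpd⟩ := Nat.exists_prime_and_dvd hne
    have h2 : (p : ℤ) ∣ (M' i : ℤ) * ((V + k % V : ℕ) : ℤ) + h i :=
      (Int.natCast_dvd_natCast.2 hpd).trans (Int.gcd_dvd_left ..)
    have h3 : (p : ℤ) ∣ (V : ℤ) := (Int.natCast_dvd_natCast.2 hpd).trans (Int.gcd_dvd_right ..)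
    have h4 : p ∣ V := Int.natCast_dvd_natCast.1 h3
    have hmem : p ∈ V.primeFactors := Nat.mem_primeFactors.2 ⟨hp, h4, by omega⟩
    have h5 : k ≡ a p [MOD p] := hk p hmem
    have h6 : V + k % V ≡ a p [MOD p] := by
      have e1 : k % V ≡ k [MOD p] := (Nat.mod_modEq k V).of_dvd h4
      have e2 : V ≡ 0 [MOD p] := (Nat.modEq_zero_iff_dvd).2 h4
      have e3 := (e2.add e1).trans ((by rw [zero_add] : (0 + k) ≡ k [MOD p]) )
      exact e3.trans h5
    have h7 : (p : ℤ) ∣ ((a p : ℕ) : ℤ) - ((V + k % V : ℕ) : ℤ) := (Nat.modEq_iff_dvd).1 h6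
    apply ha p hp i
    have e4 : (M' i : ℤ) * ((a p : ℕ) : ℤ) + h i =
        ((M' i : ℤ) * ((V + k % V : ℕ) : ℤ) + h i) +
          (M' i : ℤ) * (((a p : ℕ) : ℤ) - ((V + k % V : ℕ) : ℤ)) := by ring
    rw [e4]
    exact dvd_add h2 (h7.mul_left _)

end Pool.Agent.Lib.BE
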