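import Pool.Agent.Lib.BE.SpecE

set_option autoImplicit false

namespace Pool.Agent.Lib.BE

open Finset
open Pool.Agent.Lib.MP_9f2731_nt.GP
open Pool.Agent.Lib.MP_9f2731_nt.CG
open Pool.Agent.Lib.MP_9f2731_nt.CG.Mf

private theorem ApP_not {p : ℕ} (hp : p.Prime) {a b : ℤ} (hc : IsCoprime a b) :
    ¬ ((p : ℤ) ∣ a ∧ (p : ℤ) ∣ b) := by
  rintro ⟨ha, hb⟩
  have hu : IsUnit (p : ℤ) := hc.isUnit_of_dvd' ha hb
  exact (Nat.prime_iff_prime_int.mp hp).not_isUnit hu

theorem tApP : ApPStmt := by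
  intro N p M' h hp hc hd
  by_cases hN : p ≤ N
  · have hpN : (p : ℤ) ∣ (N.factorial : ℤ) := by
      exact_mod_cast (hp.dvd_factorial).mpr hN
    by_cases h0 : ∃ i, (p : ℤ) ∣ h i
    · obtain ⟨i0, hi0⟩ := h0
      refine ⟨1, fun i hi => ?_⟩
      have h1 : (p : ℤ) ∣ h i - h i0 := hpN.trans (hd i i0)
      have h2 : (p : ℤ) ∣ h i := by
        have := dvd_add h1 hi0
        simpa using this
      have h3 : (p : ℤ) ∣ (M' i : ℤ) := by
        have := dvd_sub hi h2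
        simpa using this
      exact ApP_not hp (hc i i) ⟨h3, h2⟩
    · refine ⟨0, fun i hi => h0 ⟨i, ?_⟩⟩
      simpa using hi
  · by_contra hcon
    push Not at hcon
    choose φ hφ using hcon
    have hinj : Function.Injective (fun ν : Fin p => φ ν) := by
      intro ν ν' hνν
      have e : φ ν = φ ν' := hνν
      have h1 := hφ ν
      have h2 := hφ ν'
      rw [← e] at h2
      have h3 : ¬ (p : ℤ) ∣ (M' (φ ν) : ℤ) := by
        intro h4
        have h5 : (p : ℤ) ∣ h (φ ν) := (dvd_add_right (h4.mul_right _)).mp h1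
        exact ApP_not hp (hc (φ ν) (φ ν)) ⟨h4, h5⟩
      have h6 : (p : ℤ) ∣ (M' (φ ν) : ℤ) * (((ν : ℕ) : ℤ) - ((ν' : ℕ) : ℤ)) := by
        have := dvd_sub h1 h2
        have e2 : (M' (φ ν) : ℤ) * ((ν : ℕ) : ℤ) + h (φ ν) -
            ((M' (φ ν) : ℤ) * ((ν' : ℕ) : ℤ) + h (φ ν)) =
            (M' (φ ν) : ℤ) * (((ν : ℕ) : ℤ) - ((ν' : ℕ) : ℤ)) := by ring
        rwa [e2] at this
      have h7 : (p : ℤ) ∣ ((ν : ℕ) : ℤ) - ((ν' : ℕ) : ℤ) :=
        ((Nat.prime_iff_prime_int.mp hp).dvd_or_dvd h6).resolve_left h3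
      have h8 : ((ν : ℕ) : ℤ) - ((ν' : ℕ) : ℤ) = 0 := by
        refine Int.eq_zero_of_abs_lt_dvd h7 ?_
        have a1 := ν.isLt
        have a2 := ν'.isLt
        rw [abs_lt]
        constructor <;> omega
      exact Fin.ext (by omega)
    have := Fintype.card_le_of_injective _ hinj
    rw [Fintype.card_fin, Fintype.card_fin] at this
    exact hN this

end Pool.Agent.Lib.BE
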