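import Pool.Agent.Lib.BE.SpecE

/-!
# PROJECT BE, module HsC: the shifts
-/

set_option autoImplicit false

namespace Pool.Agent.Lib.BE

open Finset
open Pool.Agent.Lib.MP_9f2731_nt.GP Pool.Agent.Lib.MP_9f2731_nt.CG
  Pool.Agent.Lib.MP_9f2731_nt.CG.Mf

/-- infinitely many elements lie in one residue class -/
private lemma HsC_class (q : ℕ) (hq : 0 < q) (H : Set ℤ) (hH : H.Infinite) :
    ∃ c : ℤ, (H ∩ {x : ℤ | x % (q : ℤ) = c}).Infinite := by
  by_contra hcon
  push Not at hcon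
  have hfin : ∀ c : ℤ, (H ∩ {x : ℤ | x % (q : ℤ) = c}).Finite := fun c =>
    hcon c
  apply hH
  have hU : (⋃ c ∈ (Set.Icc (0 : ℤ) q), (H ∩ {x : ℤ | x % (q : ℤ) = c})).Finite :=
    Set.Finite.biUnion (Set.finite_Icc _ _) (fun c _ => hfin c)
  refine hU.subset ?_
  intro x hx
  have hq0 : (0 : ℤ) < q := by exact_mod_cast hq
  simp only [Set.mem_iUnion]
  exact ⟨x % (q : ℤ), ⟨Int.emod_nonneg _ hq0.ne', (Int.emod_lt_of_pos _ hq0).le⟩, hx, rfl⟩

/-- an infinite set of integers is unbounded in absolute value -/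
private lemma HsC_unb (H : Set ℤ) (hH : H.Infinite) (C : ℕ) : ∃ x ∈ H, C < x.natAbs := by
  by_contra hcon
  push Not at hcon
  apply hH
  refine (Set.finite_Icc (-(C : ℤ)) C).subset ?_
  intro x hx
  have h := hcon x hx
  have h2 : |x| ≤ (C : ℤ) := by
    rw [Int.abs_eq_natAbs]
    exact_mod_cast h
  exact abs_le.1 h2

/-- the recursive choice -/
private def HsC_seq (g : ℕ → ℤ) (B : ℕ) : ℕ → ℤ
  | 0 => g 0
  | (n + 1) => g (B * (HsC_seq g B n).natAbs + (HsC_seq g B n).natAbs)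

private lemma HsC_seq_mono (g : ℕ → ℤ) (B : ℕ) (hg : ∀ C, C < (g C).natAbs) (i j : ℕ)
    (hij : i ≤ j) : (HsC_seq g B i).natAbs ≤ (HsC_seq g B j).natAbs := by
  induction hij with
  | refl => exact le_refl _
  | step h ih =>
    refine ih.trans ?_
    rename_i m
    have h1 := hg (B * (HsC_seq g B m).natAbs + (HsC_seq g B m).natAbs)
    have h2 : HsC_seq g B (m + 1) =
      g (B * (HsC_seq g B m).natAbs + (HsC_seq g B m).natAbs) := rfl
    rw [h2]
    omega

private lemma HsC_seq_big (g : ℕ → ℤ) (B : ℕ) (hg : ∀ C, C < (g C).natAbs) (i j : ℕ)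
    (hij : i < j) : B * (HsC_seq g B i).natAbs < (HsC_seq g B j).natAbs := by
  obtain ⟨m, rfl⟩ : ∃ m, j = m + 1 := ⟨j - 1, by omega⟩
  have h0 : (HsC_seq g B i).natAbs ≤ (HsC_seq g B m).natAbs :=
    HsC_seq_mono g B hg i m (by omega)
  have h1 := hg (B * (HsC_seq g B m).natAbs + (HsC_seq g B m).natAbs)
  have h2 : HsC_seq g B (m + 1) =
    g (B * (HsC_seq g B m).natAbs + (HsC_seq g B m).natAbs) := rfl
  have h3 : B * (HsC_seq g B i).natAbs ≤ B * (HsC_seq g B m).natAbs := Nat.mul_le_mul_left _ h0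
  rw [h2]
  omega

/-- two elements of very different size -/
private lemma HsC_ne (B : ℕ) (a b : ℤ) (hab : B * a.natAbs < b.natAbs) (x y : ℕ) (hx : 1 ≤ x)
    (hy : y ≤ B) : (x : ℤ) * b ≠ y * a := by
  intro he
  have h1 : ((x : ℤ) * b).natAbs = ((y : ℤ) * a).natAbs := by rw [he]
  rw [Int.natAbs_mul, Int.natAbs_mul, Int.natAbs_natCast, Int.natAbs_natCast] at h1
  have h2 : b.natAbs ≤ x * b.natAbs := Nat.le_mul_of_pos_left _ hx
  have h3 : y * a.natAbs ≤ B * a.natAbs := Nat.mul_le_mul_right _ hy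
  omega

theorem tHsC : HsCStmt := by
  intro N B H hH
  obtain ⟨c, hc⟩ := HsC_class N.factorial (Nat.factorial_pos N) H hH
  have hex : ∀ C : ℕ, ∃ x ∈ H ∩ {x : ℤ | x % (N.factorial : ℤ) = c}, C < x.natAbs :=
    HsC_unb _ hc
  choose g hg1 hg2 using hex
  have hmem : ∀ n, HsC_seq g B n ∈ H ∩ {x : ℤ | x % (N.factorial : ℤ) = c} := by
    intro n
    cases n with
    | zero => exact hg1 _
    | succ n => exact hg1 _
  refine ⟨fun i => HsC_seq g B i, fun i => (hmem i).1, ?_, ?_⟩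
  · intro i j
    have h1 : HsC_seq g B i % (N.factorial : ℤ) = c := (hmem i).2
    have h2 : HsC_seq g B j % (N.factorial : ℤ) = c := (hmem j).2
    exact Int.ModEq.dvd (show HsC_seq g B j ≡ HsC_seq g B i [ZMOD (N.factorial : ℤ)] from
      h2.trans h1.symm)
  · intro i j hij x y hx hxB hy hyB
    rcases lt_or_gt_of_ne (fun h : (i : ℕ) = j => hij (Fin.ext h)) with h | h
    · exact HsC_ne B _ _ (HsC_seq_big g B hg2 i j h) x y hx hyB
    · intro he
      exact HsC_ne B _ _ (HsC_seq_big g B hg2 j i h) y x hy hxB he.symm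

end Pool.Agent.Lib.BE
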