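import Pool.Agent.Lib.BE.SpecE

/-!
PROJECT BE (note 5284), module LnC (helper56): the product of the coefficients along a combinatorial line.
-/

set_option autoImplicit false

namespace Pool.Agent.Lib.BE

open Finset
open Pool.Agent.Lib.MP_9f2731_nt.GP
open Pool.Agent.Lib.MP_9f2731_nt.CG
open Pool.Agent.Lib.MP_9f2731_nt.CG.Mf

private lemma LnC_none {k r : ℕ} (w : Fin r → Option (Fin k)) (j : Fin k) {t : Fin r} (h : w t = none) :
    lineMap w j t = j := by
  unfold lineMap
  rw [h]
  rfl

private lemma LnC_some {k r : ℕ} (w : Fin r → Option (Fin k)) (j j' : Fin k) {t : Fin r} (h : w t ≠ none) :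
    lineMap w j t = lineMap w j' t := by
  unfold lineMap
  cases hw : w t with
  | none => exact absurd hw h
  | some a => rfl

theorem tLnC : LnCStmt := by
  classical
  intro k r f w hk hf hw
  obtain ⟨t0, ht0⟩ := hw
  let j0 : Fin k := ⟨0, hk⟩
  refine ⟨univ.filter (fun t => w t = none),
    ∏ t ∈ univ.filter (fun t => ¬ w t = none), f t (lineMap w j0 t), ⟨t0, ?_⟩, ?_, ?_, ?_⟩
  · rw [mem_filter]
    exact ⟨mem_univ _, ht0⟩
  · exact Nat.one_le_iff_ne_zero.2 (prod_ne_zero_iff.2 fun t _ => Nat.one_le_iff_ne_zero.1 (hf t _))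
  · intro j
    rw [← prod_filter_mul_prod_filter_not univ (fun t => w t = none), mul_comm]
    congr 1
    · apply prod_congr rfl
      intro t ht
      rw [mem_filter] at ht
      rw [LnC_some w j j0 ht.2]
    · apply prod_congr rfl
      intro t ht
      rw [mem_filter] at ht
      rw [LnC_none w j ht.2]
  · intro j j' hjj
    have h := congrFun hjj t0
    simp only at h
    rw [LnC_none w j ht0, LnC_none w j' ht0] at h
    exact h

end Pool.Agent.Lib.BE
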