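import Pool.Agent.Lib.BE.SpecE

/-!
Project BE, module StE: the setup for the forms `V M' l b + c l`.
-/

set_option autoImplicit false

namespace Pool.Agent.Lib.BE

open Finset
open Pool.Agent.Lib.MP_9f2731_nt.GP
open Pool.Agent.Lib.MP_9f2731_nt.CG
open Pool.Agent.Lib.MP_9f2731_nt.CG.Mf

private def StE_B {K : ℕ} (M' : Fin K → ℕ) (h : Fin K → ℤ) : ℕ :=
  1 + ∑ l, M' l + ∑ l, (h l).natAbs + ∑ l, ∑ l', ((M' l : ℤ) * h l' - M' l' * h l).natAbs

private lemma StE_B1 {K : ℕ} (M' : Fin K → ℕ) (h : Fin K → ℤ) (l : Fin K) :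
    M' l ≤ StE_B M' h := by
  have h1 : M' l ≤ ∑ l, M' l := single_le_sum (f := M') (fun i _ => Nat.zero_le _) (mem_univ l)
  unfold StE_B
  omega

private lemma StE_B2 {K : ℕ} (M' : Fin K → ℕ) (h : Fin K → ℤ) (l : Fin K) :
    (h l).natAbs + 1 ≤ StE_B M' h := by
  have h1 : (h l).natAbs ≤ ∑ l, (h l).natAbs :=
    single_le_sum (f := fun l => (h l).natAbs) (fun i _ => Nat.zero_le _) (mem_univ l)
  unfold StE_B
  omega

private lemma StE_B3 {K : ℕ} (M' : Fin K → ℕ) (h : Fin K → ℤ) (j k : Fin K) :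
    ((M' j : ℤ) * h k - M' k * h j).natAbs ≤ StE_B M' h := by
  have h1 : ((M' j : ℤ) * h k - M' k * h j).natAbs ≤
      ∑ l', ((M' j : ℤ) * h l' - M' l' * h j).natAbs :=
    single_le_sum (f := fun l' => ((M' j : ℤ) * h l' - M' l' * h j).natAbs)
      (fun i _ => Nat.zero_le _) (mem_univ k)
  have h2 : (∑ l', ((M' j : ℤ) * h l' - M' l' * h j).natAbs) ≤
      ∑ l, ∑ l', ((M' l : ℤ) * h l' - M' l' * h l).natAbs :=
    single_le_sum (f := fun l => ∑ l', ((M' l : ℤ) * h l' - M' l' * h l).natAbs)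
      (fun i _ => Nat.zero_le _) (mem_univ j)
  unfold StE_B
  omega

private lemma StE_dist (p a b : ℕ) (h : p ∣ Nat.dist a b) : (p : ℤ) ∣ (a : ℤ) - b := by
  rcases le_total a b with hab | hab
  · rw [Nat.dist_eq_sub_of_le hab] at h
    have h1 : (p : ℤ) ∣ ((b - a : ℕ) : ℤ) := Int.natCast_dvd_natCast.mpr h
    rw [Nat.cast_sub hab] at h1
    have h2 := (dvd_neg (a := (p : ℤ))).mpr h1
    have h3 : -((b : ℤ) - a) = (a : ℤ) - b := by ring
    rwa [h3] at h2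
  · rw [Nat.dist_eq_sub_of_le_right hab] at h
    have h1 : (p : ℤ) ∣ ((a - b : ℕ) : ℤ) := Int.natCast_dvd_natCast.mpr h
    rwa [Nat.cast_sub hab] at h1

theorem tStE (h1 : VwCStmt) (h2 : AdCStmt) : StEStmt := by
  intro K M' h ε1 hε hM hco hfac hne
  obtain ⟨X0, hX0⟩ := h1 (StE_B M' h) ε1 hε
  refine ⟨StE_B M' h, X0, fun X p0 hX hp0 hw => ?_⟩
  obtain ⟨hV1, hVsf, hpV, hBV, hBw, hs, hww, hlog, hlM⟩ := hX0 X p0 hX hp0
  obtain ⟨ν, hν1, hν2, hνc⟩ := h2 K (Vx X p0) M' h hV1 hVsf hco hfac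
  have habs : ∀ l, -((Vx X p0 : ℕ) : ℤ) + 1 ≤ h l ∧ h l ≤ ((Vx X p0 : ℕ) : ℤ) - 1 := by
    intro l
    have h3 := StE_B2 M' h l
    omega
  have hlow : ∀ l, ((ν : ℕ) : ℤ) ≤ (M' l : ℤ) * ν := by
    intro l
    have h3 : (1 : ℤ) ≤ (M' l : ℤ) := by exact_mod_cast hM l
    nlinarith [Int.natCast_nonneg ν]
  have hpos : ∀ l, (1 : ℤ) ≤ (M' l : ℤ) * ν + h l := by
    intro l
    have h3 := hlow l
    have h4 := habs l
    have h5 : ((Vx X p0 : ℕ) : ℤ) ≤ ν := by exact_mod_cast hν1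
    linarith [h4.1]
  have hcl : ∀ l, ((((M' l : ℤ) * ν + h l).toNat : ℕ) : ℤ) = (M' l : ℤ) * ν + h l := by
    intro l
    exact Int.toNat_of_nonneg (by have := hpos l; linarith)
  have hbig : ∀ p : ℕ, p.Prime → ¬ p ∣ Vx X p0 * p0 → StE_B M' h < p := by
    intro p hp hpd
    by_contra hle
    exact hpd (hs p hp (by omega))
  have hnV : ∀ p : ℕ, ¬ p ∣ Vx X p0 * p0 → ¬ p ∣ Vx X p0 := fun p hp hd => hp (hd.mul_right _)
  refine ⟨ν, fun l => ((M' l : ℤ) * ν + h l).toNat, hcl, ?_, ?_⟩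
  · refine ⟨hp0, hpV, hV1, hww, hlog, hs, ?_, ?_, ?_, ?_⟩
    · intro j p hp hpd hdiv
      rcases (Nat.Prime.dvd_mul hp).mp hdiv with h3 | h3
      · exact hnV p hpd h3
      · have h4 := Nat.le_of_dvd (hM j) h3
        have h5 := StE_B1 M' h j
        have h6 := hbig p hp hpd
        omega
    · intro j k hjk p hp hpd hdiv
      have h3 := StE_dist _ _ _ hdiv
      have h4 : ((Vx X p0 * M' j * ((M' k : ℤ) * ν + h k).toNat : ℕ) : ℤ) -
          ((Vx X p0 * M' k * ((M' j : ℤ) * ν + h j).toNat : ℕ) : ℤ) =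
          ((Vx X p0 : ℕ) : ℤ) * ((M' j : ℤ) * h k - M' k * h j) := by
        push_cast [hcl]
        ring
      rw [h4] at h3
      rcases (Nat.prime_iff_prime_int.mp hp).dvd_or_dvd h3 with h5 | h5
      · exact hnV p hpd (Int.natCast_dvd_natCast.mp h5)
      · have h6 := Int.natCast_dvd.mp h5
        have h7 : 0 < ((M' j : ℤ) * h k - M' k * h j).natAbs :=
          Int.natAbs_pos.mpr (sub_ne_zero.mpr (hne j k hjk))
        have h8 := Nat.le_of_dvd h7 h6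
        have h9 := StE_B3 M' h j k
        have h10 := hbig p hp hpd
        omega
    · intro j
      exact Dvd.intro _ rfl
    · intro j
      exact Nat.one_le_iff_ne_zero.mpr (Nat.mul_ne_zero (by omega) (by have := hM j; omega))
  · intro l
    refine ⟨?_, hlM (M' l) (hM l) (StE_B1 M' h l), ?_, ?_, ?_⟩
    · intro hdiv
      rcases (Nat.Prime.dvd_mul hp0).mp hdiv with h3 | h3
      · exact hpV h3
      · have h4 := Nat.le_of_dvd (hM l) h3
        have h5 := StE_B1 M' h l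
        omega
    · have h3 := hcl l
      have h4 := hpos l
      have h5 : (1 : ℤ) ≤ ((((M' l : ℤ) * ν + h l).toNat : ℕ) : ℤ) := by rw [h3]; exact h4
      exact_mod_cast h5
    · have h3 := hcl l
      have h4 := habs l
      have h5 : ((ν : ℕ) : ℤ) < 2 * ((Vx X p0 : ℕ) : ℤ) := by exact_mod_cast hν2
      have h6 : (1 : ℤ) ≤ (M' l : ℤ) := by exact_mod_cast hM l
      have h7 : ((((M' l : ℤ) * ν + h l).toNat : ℕ) : ℤ) ≤ 4 * (((Vx X p0 : ℕ) : ℤ) * (M' l : ℤ)) := by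
        rw [h3]
        have h8 : (0 : ℤ) ≤ ((Vx X p0 : ℕ) : ℤ) := Int.natCast_nonneg _
        nlinarith [h4.2, mul_le_mul_of_nonneg_left h5.le (by linarith : (0 : ℤ) ≤ (M' l : ℤ))]
      exact_mod_cast h7
    · have h3 := hcl l
      have h4 : IsCoprime ((((M' l : ℤ) * ν + h l).toNat : ℕ) : ℤ) ((Vx X p0 : ℕ) : ℤ) := by
        rw [h3]
        exact hνc l
      have h5 : IsCoprime ((((M' l : ℤ) * ν + h l).toNat : ℕ) : ℤ) ((M' l : ℕ) : ℤ) := by
        rw [h3, add_comm]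
        exact IsCoprime.add_mul_left_left (hco l l).symm (ν : ℤ)
      exact Nat.Coprime.mul_right (Nat.isCoprime_iff_coprime.mp h4) (Nat.isCoprime_iff_coprime.mp h5)

end Pool.Agent.Lib.BE
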