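import Pool.Agent.Lib.BE.SpecE

/-!
# BE, module VwC: the modulus
-/

set_option autoImplicit false

namespace Pool.Agent.Lib.BE

open Finset
open Pool.Agent.Lib.MP_9f2731_nt.GP
open Pool.Agent.Lib.MP_9f2731_nt.CG
open Pool.Agent.Lib.MP_9f2731_nt.CG.Mf

private theorem VwC_sq (X p0 : ℕ) : Squarefree (Vx X p0) := by
  unfold Vx
  refine Finset.squarefree_prod_of_pairwise_isCoprime (fun _ hp _ hq hpq ↦ ?_) ?_
  · simp only [coe_filter, Set.mem_setOf_eq] at hp hq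
    exact Nat.coprime_iff_isRelPrime.1 ((Nat.coprime_primes hp.2.1 hq.2.1).2 hpq)
  · intro p hp
    exact (mem_filter.1 hp).2.1.prime.squarefree

private theorem VwC_pos (X p0 : ℕ) : 1 ≤ Vx X p0 := by
  unfold Vx
  exact Nat.succ_le_of_lt (Finset.prod_pos fun p hp => (mem_filter.1 hp).2.1.pos)

private theorem VwC_not (X p0 : ℕ) (hp0 : p0.Prime) : ¬ p0 ∣ Vx X p0 := by
  unfold Vx
  intro h
  rw [Prime.dvd_finset_prod_iff hp0.prime] at h
  obtain ⟨a, ha, hd⟩ := h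
  obtain ⟨-, ha1, ha2⟩ := mem_filter.1 ha
  exact ha2 ((Nat.prime_dvd_prime_iff_eq hp0 ha1).1 hd).symm

private theorem VwC_dvd (X p0 p : ℕ) (hp : p.Prime) (hpw : p ≤ wx X) (hne : p ≠ p0) :
    p ∣ Vx X p0 := by
  unfold Vx
  exact Finset.dvd_prod_of_mem _ (mem_filter.2 ⟨mem_range.2 (by omega), hp, hne⟩)

private theorem VwC_le (X p0 : ℕ) : Vx X p0 ≤ 4 ^ (wx X) := by
  refine le_trans ?_ (primorial_le_four_pow (wx X))
  unfold Vx primorial
  refine Finset.prod_le_prod_of_subset_of_one_le' ?_ ?_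
  · intro p hp
    obtain ⟨h1, h2, -⟩ := mem_filter.1 hp
    exact mem_filter.2 ⟨h1, h2⟩
  · intro p hp _
    exact (mem_filter.1 hp).2.one_le

private theorem VwC_log (X p0 : ℕ) : Real.log (Vx X p0) ≤ 2 * (wx X : ℝ) := by
  have h1 : Real.log (Vx X p0) ≤ Real.log (((4 ^ (wx X) : ℕ) : ℝ)) := by
    apply Real.log_le_log
    · exact_mod_cast VwC_pos X p0
    · exact_mod_cast VwC_le X p0
  have h2 : Real.log (((4 ^ (wx X) : ℕ) : ℝ)) = (wx X : ℝ) * Real.log 4 := by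
    push_cast
    rw [Real.log_pow]
  have h3 : Real.log 4 ≤ 2 := by
    have h4 : (4 : ℝ) = 2 ^ 2 := by norm_num
    rw [h4, Real.log_pow]
    have := Real.log_two_lt_d9
    push_cast
    linarith
  rw [h2] at h1
  have h5 : (0 : ℝ) ≤ (wx X : ℝ) := Nat.cast_nonneg _
  nlinarith

/-- powers against the exponential function -/
private theorem VwC_pow (k : ℕ) {b c : ℝ} (hb : 0 < b) (hc : 0 < c) :
    ∃ Y : ℝ, 0 ≤ Y ∧ ∀ y : ℝ, Y ≤ y → y ^ k ≤ c * Real.exp (b * y) := by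
  have h := (isLittleO_pow_exp_pos_mul_atTop k hb).bound hc
  obtain ⟨Y, hY⟩ := Filter.eventually_atTop.1 h
  refine ⟨max Y 0, le_max_right _ _, fun y hy => ?_⟩
  have h1 := hY y (le_trans (le_max_left _ _) hy)
  rw [Real.norm_eq_abs, Real.norm_eq_abs, abs_of_pos (Real.exp_pos _)] at h1
  exact (le_abs_self _).trans h1

theorem tVwC : VwCStmt := by
  intro B ε1 hε
  obtain ⟨p1, hp1, hp1'⟩ := Nat.exists_infinite_primes (B + 1)
  obtain ⟨p2, hp2, hp2'⟩ := Nat.exists_infinite_primes (p1 + 1)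
  obtain ⟨Y1, hY1, h1⟩ := VwC_pow 48 (b := 1 / 2) (c := 1 / 3 ^ 12) (by norm_num) (by norm_num)
  obtain ⟨Y2, hY2, h2⟩ := VwC_pow 4 (b := ε1) (c := 1 / 3) hε (by norm_num)
  -- the threshold for y = log log X
  set Y : ℝ := 2 + p2 + Y1 + Y2 + |Real.log B| with hYdef
  refine ⟨Real.exp (Real.exp Y), fun X p0 hX hp0 => ?_⟩
  have hYnn : 0 ≤ |Real.log B| := abs_nonneg _
  have hp2nn : (0 : ℝ) ≤ p2 := Nat.cast_nonneg _
  have hlogX : Real.exp Y ≤ Real.log X := by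
    rw [Real.le_log_iff_exp_le (lt_of_lt_of_le (Real.exp_pos _) hX)]
    exact hX
  have hlpos : 0 < Real.log X := lt_of_lt_of_le (Real.exp_pos _) hlogX
  have hy : Y ≤ Real.log (Real.log X) := by
    rw [Real.le_log_iff_exp_le hlpos]
    exact hlogX
  set y : ℝ := Real.log (Real.log X) with hydef
  have hexp : Real.exp y = Real.log X := Real.exp_log hlpos
  have hy2 : 2 ≤ y := by linarith
  have hyp : (p2 : ℝ) ≤ y := by linarith
  have hyB : Real.log B ≤ y := by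
    have := le_abs_self (Real.log B)
    linarith
  have hy4 : y ≤ y ^ 4 := by
    have h3 : 1 ≤ y ^ 3 := one_le_pow₀ (by linarith)
    calc y = y * 1 := (mul_one y).symm
      _ ≤ y * y ^ 3 := by gcongr
      _ = y ^ 4 := by ring
  have hwx : wx X = ⌊y ^ 4⌋₊ := rfl
  have hwle : (wx X : ℝ) ≤ y ^ 4 := by
    rw [hwx]
    exact Nat.floor_le (by positivity)
  have hwge : y ^ 4 - 1 ≤ (wx X : ℝ) := by
    rw [hwx]
    exact (Nat.sub_one_lt_floor _).le
  have hp2w : p2 ≤ wx X := by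
    rw [hwx]
    exact Nat.le_floor (hyp.trans hy4)
  have hlogV : Real.log (Vx X p0) ≤ 2 * y ^ 4 := (VwC_log X p0).trans (by linarith)
  have hlogV0 : 0 ≤ Real.log (Vx X p0) := Real.log_nonneg (by exact_mod_cast VwC_pos X p0)
  have hBV : B ≤ Vx X p0 := by
    by_cases h3 : p1 = p0
    · have h4 : p2 ∣ Vx X p0 := VwC_dvd X p0 p2 hp2' hp2w (by omega)
      have h5 := Nat.le_of_dvd (VwC_pos X p0) h4
      omega
    · have h4 : p1 ∣ Vx X p0 := VwC_dvd X p0 p1 hp1' (by omega) h3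
      have h5 := Nat.le_of_dvd (VwC_pos X p0) h4
      omega
  refine ⟨VwC_pos X p0, VwC_sq X p0, VwC_not X p0 hp0, hBV, by omega, ?_, ?_, ?_, ?_⟩
  · intro p hp hpw
    by_cases h3 : p = p0
    · rw [h3]
      exact dvd_mul_left _ _
    · exact Dvd.dvd.mul_right (VwC_dvd X p0 p hp hpw h3) _
  · have h3 : y ^ 2 + 1 ≤ y ^ 4 := by nlinarith [sq_nonneg (y ^ 2 - 1), sq_nonneg (y - 2)]
    linarith
  · have h3 : (1 + Real.log (Vx X p0)) ^ 12 ≤ (3 * y ^ 4) ^ 12 := by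
      apply pow_le_pow_left₀ (by linarith)
      have : 1 ≤ y ^ 4 := by linarith
      linarith
    have h4 := h1 y (by linarith)
    have h5 : Real.sqrt (Real.log X) = Real.exp (1 / 2 * y) := by
      rw [← hexp, ← Real.exp_half]
      congr 1
      ring
    rw [h5]
    calc (1 + Real.log (Vx X p0)) ^ 12 ≤ (3 * y ^ 4) ^ 12 := h3
      _ = 3 ^ 12 * y ^ 48 := by ring
      _ ≤ 3 ^ 12 * (1 / 3 ^ 12 * Real.exp (1 / 2 * y)) := by gcongr
      _ = Real.exp (1 / 2 * y) := by ring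
  · intro M' hM1 hMB
    have hV0 : (0 : ℝ) < (Vx X p0 : ℝ) := by exact_mod_cast VwC_pos X p0
    have hM0 : (0 : ℝ) < (M' : ℝ) := by exact_mod_cast hM1
    have h3 : Real.log ((Vx X p0 * M' : ℕ) : ℝ) = Real.log (Vx X p0) + Real.log M' := by
      push_cast
      exact Real.log_mul hV0.ne' hM0.ne'
    have h4 : Real.log M' ≤ Real.log B := Real.log_le_log hM0 (by exact_mod_cast hMB)
    have h5 : (Real.log X) ^ ε1 = Real.exp (ε1 * y) := by
      rw [Real.rpow_def_of_pos hlpos, ← hydef]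
      congr 1
      ring
    have h6 := h2 y (by linarith)
    rw [h3, h5]
    calc Real.log (Vx X p0) + Real.log M' ≤ 2 * y ^ 4 + y ^ 4 := by linarith
      _ = 3 * y ^ 4 := by ring
      _ ≤ 3 * (1 / 3 * Real.exp (ε1 * y)) := by gcongr
      _ = Real.exp (ε1 * y) := by ring

end Pool.Agent.Lib.BE
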